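import Mathlib
import Pool.Agent.X211.SDR

/-!
# Large subsets of groups: cosets of small subgroups, a rank function
-/

set_option autoImplicit false

open Cardinal Set

universe u

namespace Pool.Agent.X211.Lg

variable {G : Type u} [Group G]

/-- fewer than `κ` left translates of `A` cover `G` -/
def LeftLarge (κ : Cardinal.{u}) (A : Set G) : Prop := ∃ F : Set G, #F < κ ∧ ∀ g : G, ∃ f ∈ F, ∃ a ∈ A, f * a = g

/-- fewer than `κ` right translates of `A` cover `G` -/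
def RightLarge (κ : Cardinal.{u}) (A : Set G) : Prop := ∃ F : Set G, #F < κ ∧ ∀ g : G, ∃ f ∈ F, ∃ a ∈ A, a * f = g

/-- the left coset `g K` (`true`) and the right coset `K g` (`false`) -/
def cs (K : Subgroup G) (p : G × Bool) : Set G :=
  if p.2 then {y | ∃ k ∈ K, y = p.1 * k} else {y | ∃ k ∈ K, y = k * p.1}

theorem mem_cs_self (K : Subgroup G) (p : G × Bool) : p.1 ∈ cs K p := by
  unfold cs
  split_ifs
  · exact ⟨1, K.one_mem, by rw [mul_one]⟩
  · exact ⟨1, K.one_mem, by rw [one_mul]⟩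

theorem mk_cs (K : Subgroup G) (p : G × Bool) : #(cs K p) = #K := by
  unfold cs
  split_ifs
  · have h : {y | ∃ k ∈ K, y = p.1 * k} = (fun k => p.1 * k) '' (K : Set G) := by
      ext y
      constructor
      · rintro ⟨k, hk, rfl⟩
        exact ⟨k, hk, rfl⟩
      · rintro ⟨k, hk, rfl⟩
        exact ⟨k, hk, rfl⟩
    rw [h, mk_image_eq (mul_right_injective p.1)]
    rfl
  · have h : {y | ∃ k ∈ K, y = k * p.1} = (fun k => k * p.1) '' (K : Set G) := by
      ext y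
      constructor
      · rintro ⟨k, hk, rfl⟩
        exact ⟨k, hk, rfl⟩
      · rintro ⟨k, hk, rfl⟩
        exact ⟨k, hk, rfl⟩
    rw [h, mk_image_eq (mul_left_injective p.1)]
    rfl

/-- a set which meets all cosets of a small subgroup, up to those of the elements of the subgroup, is large -/
theorem large_of_meets {κ : Cardinal.{u}} (hκ : ℵ₀ ≤ κ) {K : Subgroup G} (hK : #K < κ) {u : G} (hu : u ∉ K) {A : Set G}
    (h : ∀ p : G × Bool, p.1 ∉ K → (cs K p ∩ A).Nonempty) : LeftLarge κ A ∧ RightLarge κ A := by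
  have hsz : ∀ φ : G → G, #((K : Set G) ∪ φ '' (K : Set G) : Set G) < κ := fun φ =>
    (mk_union_le _ _).trans_lt (add_lt_of_lt hκ hK (mk_image_le.trans_lt hK))
  constructor
  · refine ⟨(K : Set G) ∪ (fun k => u⁻¹ * k) '' (K : Set G), hsz _, fun g => ?_⟩
    by_cases hg : g ∈ K
    · obtain ⟨y, hy, hyA⟩ := h (u * g, false) (fun h1 => hu (by simpa using K.mul_mem h1 (K.inv_mem hg)))
      simp only [cs, Bool.false_eq_true, if_false, Set.mem_setOf_eq] at hy
      obtain ⟨k, hk, rfl⟩ := hy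
      exact ⟨u⁻¹ * k⁻¹, Or.inr ⟨k⁻¹, K.inv_mem hk, rfl⟩, _, hyA, by group⟩
    · obtain ⟨y, hy, hyA⟩ := h (g, false) hg
      simp only [cs, Bool.false_eq_true, if_false, Set.mem_setOf_eq] at hy
      obtain ⟨k, hk, rfl⟩ := hy
      exact ⟨k⁻¹, Or.inl (K.inv_mem hk), _, hyA, by group⟩
  · refine ⟨(K : Set G) ∪ (fun k => k * u⁻¹) '' (K : Set G), hsz _, fun g => ?_⟩
    by_cases hg : g ∈ K
    · obtain ⟨y, hy, hyA⟩ := h (g * u, true) (fun h1 => hu (by simpa using K.mul_mem (K.inv_mem hg) h1))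
      simp only [cs, if_true, Set.mem_setOf_eq] at hy
      obtain ⟨k, hk, rfl⟩ := hy
      exact ⟨k⁻¹ * u⁻¹, Or.inr ⟨k⁻¹, K.inv_mem hk, rfl⟩, _, hyA, by group⟩
    · obtain ⟨y, hy, hyA⟩ := h (g, true) hg
      simp only [cs, if_true, Set.mem_setOf_eq] at hy
      obtain ⟨k, hk, rfl⟩ := hy
      exact ⟨k⁻¹, Or.inl (K.inv_mem hk), _, hyA, by group⟩

/-- an enumeration of a type by the ordinals below its initial ordinal -/
theorem exists_rk (G : Type u) : ∃ rk : G → Ordinal.{u}, Function.Injective rk ∧ (∀ g, rk g < (#G).ord) ∧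
    (∀ o < (#G).ord, ∃ g, rk g = o) ∧ ∀ o ≤ (#G).ord, #{g | rk g < o} = o.card := by
  have h1 : #G = #((#G).ord.ToType) := (mk_ord_toType _).symm
  obtain ⟨e⟩ := Cardinal.eq.1 h1
  let f : G ≃ Set.Iio (#G).ord := e.trans Ordinal.ToType.mk.symm.toEquiv
  refine ⟨fun g => (f g : Ordinal.{u}), fun a b h => f.injective (Subtype.ext h), fun g => (f g).2, fun o ho => ⟨f.symm ⟨o, ho⟩, by
    show ((f (f.symm ⟨o, ho⟩)) : Ordinal.{u}) = o
    rw [Equiv.apply_symm_apply]⟩, fun o ho => ?_⟩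
  have h2 : Cardinal.lift.{u + 1, u} #{g | ((f g : Ordinal.{u})) < o} = #(Set.Iio o) := by
    rw [← Cardinal.lift_id'.{u, u + 1} #(Set.Iio o)]
    rw [Cardinal.lift_mk_eq']
    exact ⟨{
      toFun := fun g => ⟨(f g.1 : Ordinal.{u}), g.2⟩
      invFun := fun x => ⟨f.symm ⟨x.1, lt_of_lt_of_le x.2 ho⟩, by
        rw [Set.mem_setOf_eq, Equiv.apply_symm_apply]
        exact x.2⟩
      left_inv := fun g => by
        apply Subtype.ext
        exact f.symm_apply_apply g.1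
      right_inv := fun x => by
        apply Subtype.ext
        show ((f (f.symm ⟨x.1, _⟩)) : Ordinal.{u}) = x.1
        rw [Equiv.apply_symm_apply] }⟩
  rw [Cardinal.mk_Iio_ordinal] at h2
  exact Cardinal.lift_injective h2

/-- from disjoint sets to a partition -/
theorem partition_of_disjoint {ι : Type u} [Nonempty ι] {κ : Cardinal.{u}} (hκ : 0 < κ) (Q : ι → Set G)
    (hd : ∀ i j, i ≠ j → Disjoint (Q i) (Q j)) (hl : ∀ i, LeftLarge κ (Q i) ∧ RightLarge κ (Q i)) :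
    ∃ P : ι → Set G, (∀ i, (P i).Nonempty) ∧ (∀ i j, i ≠ j → Disjoint (P i) (P j)) ∧ (⋃ i, P i) = Set.univ ∧
      ∀ i, LeftLarge κ (P i) ∧ RightLarge κ (P i) := by
  classical
  obtain ⟨i₀⟩ := ‹Nonempty ι›
  have hsub : ∀ i, Q i ⊆ (if i = i₀ then Q i ∪ (⋃ j, Q j)ᶜ else Q i) := by
    intro i
    split_ifs
    · exact Set.subset_union_left
    · exact subset_rfl
  have hmono : ∀ i, LeftLarge κ (if i = i₀ then Q i ∪ (⋃ j, Q j)ᶜ else Q i) ∧
      RightLarge κ (if i = i₀ then Q i ∪ (⋃ j, Q j)ᶜ else Q i) := by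
    intro i
    obtain ⟨⟨F, hF, h⟩, F', hF', h'⟩ := hl i
    refine ⟨⟨F, hF, fun g => ?_⟩, F', hF', fun g => ?_⟩
    · obtain ⟨f, hf, a, ha, e⟩ := h g
      exact ⟨f, hf, a, hsub i ha, e⟩
    · obtain ⟨f, hf, a, ha, e⟩ := h' g
      exact ⟨f, hf, a, hsub i ha, e⟩
  have hne : ∀ i, (Q i).Nonempty := by
    intro i
    obtain ⟨⟨F, hF, h⟩, -⟩ := hl i
    obtain ⟨f, hf, a, ha, e⟩ := h 1
    exact ⟨a, ha⟩
  refine ⟨fun i => if i = i₀ then Q i ∪ (⋃ j, Q j)ᶜ else Q i, fun i => (hne i).mono (hsub i), ?_, ?_, hmono⟩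
  · intro i j hij
    have key : ∀ i j, i ≠ j → Disjoint (Q i ∪ (⋃ j, Q j)ᶜ) (Q j) := by
      intro i j hij
      rw [Set.disjoint_union_left]
      refine ⟨hd i j hij, ?_⟩
      rw [Set.disjoint_left]
      intro x hx hxj
      exact hx (Set.mem_iUnion.2 ⟨j, hxj⟩)
    show Disjoint (if i = i₀ then Q i ∪ (⋃ j, Q j)ᶜ else Q i) (if j = i₀ then Q j ∪ (⋃ j, Q j)ᶜ else Q j)
    split_ifs with h1 h2 h2
    · exact absurd (h1.trans h2.symm) hij
    · exact key i j hij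
    · exact (key j i (Ne.symm hij)).symm
    · exact hd i j hij
  · rw [Set.eq_univ_iff_forall]
    intro x
    by_cases hx : x ∈ ⋃ j, Q j
    · obtain ⟨j, hj⟩ := Set.mem_iUnion.1 hx
      exact Set.mem_iUnion.2 ⟨j, hsub j hj⟩
    · refine Set.mem_iUnion.2 ⟨i₀, ?_⟩
      show x ∈ (if i₀ = i₀ then Q i₀ ∪ (⋃ j, Q j)ᶜ else Q i₀)
      rw [if_pos rfl]
      exact Or.inr hx

end Pool.Agent.X211.Lg
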