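import Mathlib
import Pool.Agent.X211.SDR

/-!
# Injective transversals of families of countable sets, by a tree of closed sets

Let `X` carry countably many binary operations. If a family of infinite sets `S r`, each supported by two elements
`a r`, `b r` of `X`, has the property that a closed set which does not contain the support of `r` has finite
intersection with `S r`, then the family has an injective choice function.
-/

set_option autoImplicit false

open Cardinal Set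

universe u

namespace Pool.Agent.X211.Lg

/-- `M` is closed under all the operations `f n` -/
def Closed {X : Type u} (f : ℕ → X → X → X) (M : Set X) : Prop := ∀ n a b, a ∈ M → b ∈ M → f n a b ∈ M

/-- iterated closure -/
def It {X : Type u} (f : ℕ → X → X → X) (S : Set X) : ℕ → Set X
  | 0 => S
  | n + 1 => It f S n ∪ {y | ∃ m, ∃ a ∈ It f S n, ∃ b ∈ It f S n, y = f m a b}

/-- the closure of a set -/
def Clo {X : Type u} (f : ℕ → X → X → X) (S : Set X) : Set X := {y | ∃ n, y ∈ It f S n}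

variable {X : Type u} {f : ℕ → X → X → X}

theorem It_le {S : Set X} {m n : ℕ} (h : m ≤ n) : It f S m ⊆ It f S n := by
  induction h with
  | refl => exact subset_rfl
  | step _ ih => exact ih.trans Set.subset_union_left

theorem subset_Clo (S : Set X) : S ⊆ Clo f S := fun _ hx => ⟨0, hx⟩

theorem closed_Clo (S : Set X) : Closed f (Clo f S) := by
  rintro m a b ⟨i, hi⟩ ⟨j, hj⟩
  exact ⟨max i j + 1, Or.inr ⟨m, a, It_le (le_max_left _ _) hi, b, It_le (le_max_right _ _) hj, rfl⟩⟩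

theorem Clo_subset {S M : Set X} (hM : Closed f M) (h : S ⊆ M) : Clo f S ⊆ M := by
  rintro y ⟨n, hy⟩
  induction n generalizing y with
  | zero => exact h hy
  | succ n ih =>
    rcases hy with hy | ⟨m, a, ha, b, hb, rfl⟩
    · exact ih hy
    · exact hM m a b (ih ha) (ih hb)

theorem Clo_mono {S S' : Set X} (h : S ⊆ S') : Clo f S ⊆ Clo f S' :=
  Clo_subset (closed_Clo _) (h.trans (subset_Clo _))

theorem mk_Clo_le {μ : Cardinal.{u}} (hμ : ℵ₀ ≤ μ) {S : Set X} (hS : #S ≤ μ) : #(Clo f S) ≤ μ := by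
  have h1 : ∀ n, #(It f S n) ≤ μ := by
    intro n
    induction n with
    | zero => exact hS
    | succ n ih =>
      have h2 : It f S (n + 1) ⊆ It f S n ∪ Set.range (fun p : (ULift.{u} ℕ) × It f S n × It f S n => f p.1.down p.2.1 p.2.2) := by
        rintro y (hy | ⟨m, a, ha, b, hb, rfl⟩)
        · exact Or.inl hy
        · exact Or.inr ⟨(⟨m⟩, ⟨a, ha⟩, ⟨b, hb⟩), rfl⟩
      refine (mk_le_mk_of_subset h2).trans ((mk_union_le _ _).trans ((add_le_add ih (mk_range_le.trans ?_)).trans (add_eq_self hμ).le))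
      rw [mk_prod, mk_prod]
      simp only [lift_id, mk_uLift, mk_nat, lift_aleph0]
      exact (mul_le_mul' hμ ((mul_le_mul' ih ih).trans (mul_eq_self hμ).le)).trans (mul_eq_self hμ).le
  have h3 : Clo f S ⊆ ⋃ n : ULift.{u} ℕ, It f S n.down := by
    rintro y ⟨n, hn⟩
    exact Set.mem_iUnion.2 ⟨⟨n⟩, hn⟩
  refine (mk_le_mk_of_subset h3).trans ((mk_iUnion_le _).trans ?_)
  have h4 : (⨆ n : ULift.{u} ℕ, #(It f S n.down)) ≤ μ := ciSup_le' fun n => h1 _
  rw [mk_uLift, mk_nat, lift_aleph0]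
  exact (mul_le_mul' hμ h4).trans (mul_eq_self hμ).le

/-- an enumeration of a type by the ordinals below its initial ordinal -/
theorem exists_rank (G : Type u) : ∃ rk : G → Ordinal.{u}, (∀ g, rk g < (#G).ord) ∧
    ∀ o ≤ (#G).ord, #{g | rk g < o} ≤ o.card := by
  have h1 : #G = #((#G).ord.ToType) := (mk_ord_toType _).symm
  obtain ⟨e⟩ := Cardinal.eq.1 h1
  let f : G ≃ Set.Iio (#G).ord := e.trans Ordinal.ToType.mk.symm.toEquiv
  refine ⟨fun g => (f g : Ordinal.{u}), fun g => (f g).2, fun o ho => ?_⟩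
  have h2 : Cardinal.lift.{u + 1, u} #{g | ((f g : Ordinal.{u})) < o} ≤ #(Set.Iio o) := by
    rw [← Cardinal.lift_id'.{u, u + 1} #(Set.Iio o)]
    rw [Cardinal.lift_mk_le']
    exact ⟨⟨fun g => ⟨(f g.1 : Ordinal.{u}), g.2⟩, fun a b h => by
      apply Subtype.ext
      apply f.injective
      apply Subtype.ext
      exact congrArg (fun z : Set.Iio o => (z : Ordinal.{u})) h⟩⟩
  rw [Cardinal.mk_Iio_ordinal] at h2
  exact Cardinal.lift_le.1 h2

section

variable {R : Type u} (a b : R → X) (S : R → Set X) (hfib : ∀ x y, #{r | a r = x ∧ b r = y} ≤ ℵ₀)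
  (hinf : ∀ r, (S r).Infinite) (hsub : ∀ M, Closed f M → ∀ r, a r ∈ M → b r ∈ M → S r ⊆ M)
  (hfin : ∀ M, Closed f M → ∀ r, ¬ (a r ∈ M ∧ b r ∈ M) → (S r ∩ M).Finite)
include hfib hinf hsub hfin

theorem transversal_aux [Nonempty X] (μ : Cardinal.{u}) : ∀ N : Set X, Closed f N → #N = μ → ∀ L : List (Set X), (∀ M ∈ L, Closed f M) →
    ∃ t : R → X, (∀ r r', (a r ∈ N ∧ b r ∈ N ∧ ∀ M ∈ L, ¬ (a r ∈ M ∧ b r ∈ M)) →
      (a r' ∈ N ∧ b r' ∈ N ∧ ∀ M ∈ L, ¬ (a r' ∈ M ∧ b r' ∈ M)) → t r = t r' → r = r') ∧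
      ∀ r, (a r ∈ N ∧ b r ∈ N ∧ ∀ M ∈ L, ¬ (a r ∈ M ∧ b r ∈ M)) → t r ∈ S r ∧ t r ∈ N ∧ ∀ M ∈ L, t r ∉ M := by
  classical
  induction μ using Cardinal.lt_wf.induction with
  | _ μ ih =>
    intro N hN hNμ L hL
    rcases le_or_gt μ ℵ₀ with hμ | hμ
    · let D : Set R := {r | a r ∈ N ∧ b r ∈ N ∧ ∀ M ∈ L, ¬ (a r ∈ M ∧ b r ∈ M)}
      have hD : #D ≤ ℵ₀ := by
        have h1 : D ⊆ ⋃ p : N × N, {r | a r = p.1 ∧ b r = p.2} := fun r hr =>
          Set.mem_iUnion.2 ⟨(⟨a r, hr.1⟩, ⟨b r, hr.2.1⟩), rfl, rfl⟩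
        refine (mk_le_mk_of_subset h1).trans ((mk_iUnion_le _).trans ?_)
        have h2 : (⨆ p : N × N, #{r | a r = (p.1 : X) ∧ b r = (p.2 : X)}) ≤ ℵ₀ := ciSup_le' fun p => hfib _ _
        have h3 : #(N × N) ≤ ℵ₀ := by
          rw [mk_prod]
          simp only [lift_id]
          rw [hNμ]
          exact (mul_le_mul' hμ hμ).trans (mul_eq_self le_rfl).le
        exact (mul_le_mul' h3 h2).trans (mul_eq_self le_rfl).le
      obtain ⟨t, ht1, ht2⟩ := exists_injective_choice (fun r : D => {y | y ∈ S r.1 ∧ ∀ M ∈ L, y ∉ M}) fun r => by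
        refine hD.trans ?_
        have h1 : {y | y ∈ S r.1 ∧ ∀ M ∈ L, y ∉ M} = S r.1 \ ⋃ M ∈ {M | M ∈ L}, (S r.1 ∩ M) := by
          ext y
          simp only [Set.mem_ofPred_eq, Set.mem_sdiff, Set.mem_iUnion, not_exists, Set.mem_inter_iff, not_and]
          exact ⟨fun h => ⟨h.1, fun M hM _ => h.2 M hM⟩, fun h => ⟨h.1, fun M hM => h.2 M hM h.1⟩⟩
        have h2 : (⋃ M ∈ {M | M ∈ L}, (S r.1 ∩ M)).Finite := by
          refine (List.finite_toSet L).biUnion fun M hM => hfin M (hL M hM) r.1 (r.2.2.2 M hM)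
        have h3 : ({y | y ∈ S r.1 ∧ ∀ M ∈ L, y ∉ M}).Infinite := by
          rw [h1]
          exact (hinf r.1).sdiff h2
        exact infinite_iff.1 h3.to_subtype
      refine ⟨fun r => if h : r ∈ D then t ⟨r, h⟩ else Classical.arbitrary X, ?_, ?_⟩
      · intro r r' hr hr' h
        have hr1 : r ∈ D := hr
        have hr1' : r' ∈ D := hr'
        simp only [dif_pos hr1, dif_pos hr1'] at h
        have := ht1 h
        simpa using this
      · intro r hr
        have hr1 : r ∈ D := hr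
        simp only [dif_pos hr1]
        have h1 := ht2 ⟨r, hr1⟩
        exact ⟨h1.1, hsub N hN r hr.1 hr.2.1 h1.1, h1.2⟩
    · obtain ⟨rk, hrk1, hrk2⟩ := exists_rank N
      rw [hNμ] at hrk1 hrk2
      let Nb : Ordinal.{u} → Set X := fun β => Clo f {x | ∃ h : x ∈ N, rk ⟨x, h⟩ < β}
      let Nl : Ordinal.{u} → Set X := fun β => {x | ∃ γ < β, x ∈ Nb γ}
      have hNbcl : ∀ β, Closed f (Nb β) := fun β => closed_Clo _
      have hNbmono : ∀ β γ, β ≤ γ → Nb β ⊆ Nb γ := fun β γ h => Clo_mono fun x hx => ⟨hx.1, hx.2.trans_le h⟩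
      have hNlcl : ∀ β, Closed f (Nl β) := by
        rintro β n x y ⟨γ, hγ, hx⟩ ⟨γ', hγ', hy⟩
        exact ⟨max γ γ', max_lt hγ hγ', hNbcl _ n x y (hNbmono _ _ (le_max_left _ _) hx) (hNbmono _ _ (le_max_right _ _) hy)⟩
      have hNbN : ∀ β, Nb β ⊆ N := fun β => Clo_subset hN fun x hx => hx.1
      have hNbcard : ∀ β < μ.ord, #(Nb β) < μ := by
        intro β hβ
        have h1 : #{x | ∃ h : x ∈ N, rk ⟨x, h⟩ < β} ≤ max ℵ₀ β.card := by
          have h2 : {x | ∃ h : x ∈ N, rk ⟨x, h⟩ < β} = Subtype.val '' {g : N | rk g < β} := by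
            ext x
            simp
          rw [h2]
          exact mk_image_le.trans ((hrk2 β hβ.le).trans (le_max_right _ _))
        exact (mk_Clo_le (le_max_left _ _) h1).trans_lt (max_lt hμ (lt_ord.1 hβ))
      have hself : ∀ (x : X) (hx : x ∈ N), x ∈ Nb (Order.succ (rk ⟨x, hx⟩)) := fun x hx =>
        subset_Clo _ ⟨hx, Order.lt_succ _⟩
      have hlim : ∀ (x : X) (hx : x ∈ N), Order.succ (rk ⟨x, hx⟩) < μ.ord := fun x hx =>
        (isSuccLimit_ord hμ.le).succ_lt (hrk1 _)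
      have key : ∀ β, β < μ.ord → ∃ t : R → X, (∀ r r', (a r ∈ Nb β ∧ b r ∈ Nb β ∧ ∀ M ∈ Nl β :: L, ¬ (a r ∈ M ∧ b r ∈ M)) →
          (a r' ∈ Nb β ∧ b r' ∈ Nb β ∧ ∀ M ∈ Nl β :: L, ¬ (a r' ∈ M ∧ b r' ∈ M)) → t r = t r' → r = r') ∧
          ∀ r, (a r ∈ Nb β ∧ b r ∈ Nb β ∧ ∀ M ∈ Nl β :: L, ¬ (a r ∈ M ∧ b r ∈ M)) → t r ∈ S r ∧ t r ∈ Nb β ∧
            ∀ M ∈ Nl β :: L, t r ∉ M := fun β hβ =>
        ih _ (hNbcard β hβ) (Nb β) (hNbcl β) rfl (Nl β :: L) (by
          intro M hM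
          rcases List.mem_cons.1 hM with rfl | hM
          · exact hNlcl β
          · exact hL M hM)
      choose! t ht1 ht2 using key
      let lv : R → Ordinal.{u} := fun r => sInf {β | a r ∈ Nb β ∧ b r ∈ Nb β}
      have hlv : ∀ r, a r ∈ N → b r ∈ N → lv r < μ.ord ∧ a r ∈ Nb (lv r) ∧ b r ∈ Nb (lv r) ∧
          ¬ (a r ∈ Nl (lv r) ∧ b r ∈ Nl (lv r)) := by
        intro r har hbr
        have h0 : max (Order.succ (rk ⟨a r, har⟩)) (Order.succ (rk ⟨b r, hbr⟩)) ∈ {β | a r ∈ Nb β ∧ b r ∈ Nb β} :=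
          ⟨hNbmono _ _ (le_max_left _ _) (hself _ har), hNbmono _ _ (le_max_right _ _) (hself _ hbr)⟩
        have h1 : lv r ∈ {β | a r ∈ Nb β ∧ b r ∈ Nb β} := csInf_mem ⟨_, h0⟩
        refine ⟨(csInf_le' h0).trans_lt (max_lt (hlim _ har) (hlim _ hbr)), h1.1, h1.2, ?_⟩
        rintro ⟨⟨γ, hγ, h2⟩, γ', hγ', h3⟩
        have h4 : max γ γ' ∈ {β | a r ∈ Nb β ∧ b r ∈ Nb β} :=
          ⟨hNbmono _ _ (le_max_left _ _) h2, hNbmono _ _ (le_max_right _ _) h3⟩
        exact absurd (csInf_le' h4) (not_le.2 (max_lt hγ hγ'))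
      have hreq : ∀ r, (a r ∈ N ∧ b r ∈ N ∧ ∀ M ∈ L, ¬ (a r ∈ M ∧ b r ∈ M)) →
          (a r ∈ Nb (lv r) ∧ b r ∈ Nb (lv r) ∧ ∀ M ∈ Nl (lv r) :: L, ¬ (a r ∈ M ∧ b r ∈ M)) := by
        intro r hr
        obtain ⟨h1, h2, h3, h4⟩ := hlv r hr.1 hr.2.1
        refine ⟨h2, h3, fun M hM => ?_⟩
        rcases List.mem_cons.1 hM with rfl | hM
        · exact h4
        · exact hr.2.2 M hM
      refine ⟨fun r => t (lv r) r, ?_, ?_⟩
      · intro r r' hr hr' h
        simp only at h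
        have h1 := hlv r hr.1 hr.2.1
        have h1' := hlv r' hr'.1 hr'.2.1
        have h2 := ht2 (lv r) h1.1 r (hreq r hr)
        have h2' := ht2 (lv r') h1'.1 r' (hreq r' hr')
        have h3 : lv r = lv r' := by
          rcases lt_trichotomy (lv r) (lv r') with h5 | h5 | h5
          · exact absurd (show t (lv r') r' ∈ Nl (lv r') from ⟨lv r, h5, h ▸ h2.2.1⟩)
              (h2'.2.2 _ List.mem_cons_self)
          · exact h5
          · exact absurd (show t (lv r) r ∈ Nl (lv r) from ⟨lv r', h5, h ▸ h2'.2.1⟩)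
              (h2.2.2 _ List.mem_cons_self)
        have h6 := hreq r' hr'
        rw [← h3] at h h6
        exact ht1 (lv r) h1.1 r r' (hreq r hr) h6 h
      · intro r hr
        have h1 := hlv r hr.1 hr.2.1
        have h2 := ht2 (lv r) h1.1 r (hreq r hr)
        exact ⟨h2.1, hNbN _ h2.2.1, fun M hM => h2.2.2 M (List.mem_cons_of_mem _ hM)⟩

theorem exists_injective_transversal : ∃ t : R → X, Function.Injective t ∧ ∀ r, t r ∈ S r := by
  classical
  rcases isEmpty_or_nonempty X with h | h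
  · exact ⟨a, fun r => (h.false (a r)).elim, fun r => (h.false (a r)).elim⟩
  · obtain ⟨t, h1, h2⟩ := transversal_aux a b S hfib hinf hsub hfin (#(Set.univ : Set X)) Set.univ
      (fun _ _ _ _ _ => Set.mem_univ _) rfl [] (fun M hM => by simp at hM)
    exact ⟨t, fun r r' h => h1 r r' ⟨Set.mem_univ _, Set.mem_univ _, fun M hM => by simp at hM⟩
      ⟨Set.mem_univ _, Set.mem_univ _, fun M hM => by simp at hM⟩ h,
      fun r => (h2 r ⟨Set.mem_univ _, Set.mem_univ _, fun M hM => by simp at hM⟩).1⟩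

end

end Pool.Agent.X211.Lg
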