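import Mathlib
import Pool.Agent.X211.Lg.Base

/-!
# Every infinite group has infinitely many pairwise disjoint sets such that finitely many left translates and finitely many
right translates of each of them cover the group
-/

set_option autoImplicit false

open Cardinal Set

universe u

namespace Pool.Agent.X211.Lg

variable {G : Type u} [Group G]

open Classical in
/-- the translates `g S` and `S g` -/
noncomputable def tr (b : Bool) (S : Finset G) (g : G) : Finset G := S.image fun s => if b then g * s else s * g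

theorem tr_card (b : Bool) (S : Finset G) (g : G) : (tr b S g).card = S.card := by
  classical
  unfold tr
  refine Finset.card_image_of_injective _ ?_
  intro x y h
  cases b
  · simpa using h
  · simpa using h

theorem exists_max (b : Bool) (S : Finset G) (hS : S.Nonempty) : ∃ Y : Set G,
    (∀ g ∈ Y, ∀ h ∈ Y, g ≠ h → Disjoint (tr b S g) (tr b S h)) ∧ ∀ h : G, ∃ g ∈ Y, ¬ Disjoint (tr b S h) (tr b S g) := by
  classical
  obtain ⟨Y, hY⟩ := zorn_subset {Y : Set G | ∀ g ∈ Y, ∀ h ∈ Y, g ≠ h → Disjoint (tr b S g) (tr b S h)} (by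
    intro c hc hch
    refine ⟨⋃₀ c, ?_, fun s hs => Set.subset_sUnion_of_mem hs⟩
    rintro g ⟨s, hs, hg⟩ h ⟨t, ht, hh⟩ hgh
    rcases hch.total hs ht with h1 | h1
    · exact hc ht g (h1 hg) h hh hgh
    · exact hc hs g hg h (h1 hh) hgh)
  refine ⟨Y, hY.prop, fun h => ?_⟩
  by_contra hcon
  push Not at hcon
  have hne : (tr b S h).Nonempty := by
    rw [← Finset.card_pos, tr_card]
    exact Finset.card_pos.2 hS
  have h1 : h ∉ Y := fun hh => by
    have h2 := hcon h hh
    rw [disjoint_self, Finset.bot_eq_empty] at h2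
    exact hne.ne_empty h2
  have h2 : insert h Y ∈ {Y : Set G | ∀ g ∈ Y, ∀ h ∈ Y, g ≠ h → Disjoint (tr b S g) (tr b S h)} := by
    rintro g (rfl | hg) g' (rfl | hg') hgg
    · exact absurd rfl hgg
    · exact hcon g' hg'
    · exact (hcon g hg).symm
    · exact hY.prop g hg g' hg' hgg
  exact h1 (hY.le_of_ge h2 (Set.subset_insert _ _) (Set.mem_insert _ _))

theorem exists_disjoint_omega (G : Type u) [Group G] [Infinite G] : ∃ A : ℕ → Set G,
    (∀ i j, i ≠ j → Disjoint (A i) (A j)) ∧ ∀ i, LeftLarge ℵ₀ (A i) ∧ RightLarge ℵ₀ (A i) := by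
  classical
  choose S hS using fun n : ℕ => Infinite.exists_subset_card_eq G (2 ^ (n + 2))
  have hSne : ∀ n, (S n).Nonempty := fun n => by
    rw [← Finset.card_pos, hS]
    positivity
  choose Y hY1 hY2 using fun p : ℕ × Bool => exists_max p.2 (S p.1) (hSne p.1)
  let R : Type u := Σ p : ℕ × Bool, Y p
  let t : R → Finset G := fun r => tr r.1.2 (S r.1.1) r.2
  have hcard : ∀ r : R, (t r).card = 2 ^ (r.1.1 + 2) := fun r => by rw [tr_card, hS]
  have hall : ∀ s : Finset R, s.card ≤ (s.biUnion t).card := by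
    intro s
    have h1 : (s.card : ℝ) = ∑ r ∈ s, ∑ x ∈ s.biUnion t, if x ∈ t r then (1 : ℝ) / 2 ^ (r.1.1 + 2) else 0 := by
      rw [Finset.card_eq_sum_ones, Nat.cast_sum]
      refine Finset.sum_congr rfl fun r hr => ?_
      rw [← Finset.sum_filter]
      have h2 : (s.biUnion t).filter (fun x => x ∈ t r) = t r := by
        ext x
        rw [Finset.mem_filter]
        exact ⟨fun h => h.2, fun h => ⟨Finset.mem_biUnion.2 ⟨r, hr, h⟩, h⟩⟩
      rw [h2, Finset.sum_const, hcard, nsmul_eq_mul]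
      push_cast
      field_simp
    have h3 : ∀ x : G, ∑ r ∈ s, (if x ∈ t r then (1 : ℝ) / 2 ^ (r.1.1 + 2) else 0) ≤ 1 := by
      intro x
      rw [← Finset.sum_filter]
      have hinj : Set.InjOn (fun r : R => r.1) (s.filter (fun r => x ∈ t r) : Finset R) := by
        rintro ⟨p, g⟩ hg ⟨p', g'⟩ hg' hpp
        simp only at hpp
        subst hpp
        simp only [Finset.coe_filter, Set.mem_setOf_eq] at hg hg'
        by_contra hne
        have hne' : (g : G) ≠ g' := fun h => hne (by rw [Subtype.ext h])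
        exact Finset.disjoint_left.1 (hY1 p g.1 g.2 g'.1 g'.2 hne') hg.2 hg'.2
      have h4 : ∑ r ∈ s.filter (fun r => x ∈ t r), (1 : ℝ) / 2 ^ (r.1.1 + 2) =
          ∑ p ∈ (s.filter (fun r => x ∈ t r)).image (fun r : R => r.1), (1 : ℝ) / 2 ^ (p.1 + 2) := by
        rw [Finset.sum_image hinj]
      rw [h4]
      obtain ⟨N, hN⟩ : ∃ N : ℕ, (s.filter (fun r => x ∈ t r)).image (fun r : R => r.1) ⊆
          Finset.range N ×ˢ (Finset.univ : Finset Bool) := by
        refine ⟨(((s.filter (fun r => x ∈ t r)).image (fun r : R => r.1)).sup fun p => p.1) + 1, ?_⟩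
        intro p hp
        rw [Finset.mem_product, Finset.mem_range]
        exact ⟨Nat.lt_succ_of_le (Finset.le_sup (f := fun p : ℕ × Bool => p.1) hp), Finset.mem_univ _⟩
      refine (Finset.sum_le_sum_of_subset_of_nonneg hN fun p _ _ => by positivity).trans ?_
      rw [Finset.sum_product]
      simp only [Finset.sum_const, Finset.card_univ, Fintype.card_bool, nsmul_eq_mul]
      have h5 : ∀ N : ℕ, ∑ n ∈ Finset.range N, ((2 : ℕ) : ℝ) * (1 / 2 ^ (n + 2)) = 1 - 1 / 2 ^ N := by
        intro N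
        induction N with
        | zero => simp
        | succ n ih =>
          rw [Finset.sum_range_succ, ih]
          push_cast
          field_simp
          ring
      rw [h5]
      have h6 : (0 : ℝ) < 1 / 2 ^ N := by positivity
      linarith
    have h8 : (s.card : ℝ) ≤ (s.biUnion t).card := by
      rw [h1, Finset.sum_comm]
      refine (Finset.sum_le_sum fun x _ => h3 x).trans ?_
      simp
    exact_mod_cast h8
  obtain ⟨f, hf1, hf2⟩ := (Finset.all_card_le_biUnion_card_iff_exists_injective t).1 hall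
  refine ⟨fun n => {x | ∃ (b : Bool) (g : Y (n, b)), x = f ⟨(n, b), g⟩}, ?_, fun n => ⟨?_, ?_⟩⟩
  · intro i j hij
    rw [Set.disjoint_left]
    rintro x ⟨b, g, rfl⟩ ⟨b', g', h⟩
    have h1 := congrArg (fun r : R => r.1.1) (hf1 h)
    exact hij h1
  · refine ⟨Set.range (fun q : S n × S n × S n => (q.1 : G)⁻¹ * q.2.1 * (q.2.2 : G)⁻¹), ?_, fun h => ?_⟩
    · exact Cardinal.lt_aleph0_iff_set_finite.2 (Set.finite_range _)
    · obtain ⟨g, hg, hd⟩ := hY2 (n, false) h
      rw [Finset.not_disjoint_iff] at hd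
      obtain ⟨y, hy1, hy2⟩ := hd
      unfold tr at hy1 hy2
      obtain ⟨s, hs, rfl⟩ := Finset.mem_image.1 hy1
      obtain ⟨s', hs', e⟩ := Finset.mem_image.1 hy2
      have h3 := hf2 ⟨(n, false), ⟨g, hg⟩⟩
      obtain ⟨s'', hs'', e'⟩ := Finset.mem_image.1 h3
      simp only [Bool.false_eq_true, if_false] at e e'
      refine ⟨_, ⟨(⟨s, hs⟩, ⟨s', hs'⟩, ⟨s'', hs''⟩), rfl⟩, _, ⟨false, ⟨g, hg⟩, rfl⟩, ?_⟩
      rw [← e']
      simp only
      calc s⁻¹ * s' * s''⁻¹ * (s'' * g) = s⁻¹ * (s' * g) := by group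
        _ = h := by rw [e]; group
  · refine ⟨Set.range (fun q : S n × S n × S n => (q.1 : G)⁻¹ * q.2.1 * (q.2.2 : G)⁻¹), ?_, fun h => ?_⟩
    · exact Cardinal.lt_aleph0_iff_set_finite.2 (Set.finite_range _)
    · obtain ⟨g, hg, hd⟩ := hY2 (n, true) h
      rw [Finset.not_disjoint_iff] at hd
      obtain ⟨y, hy1, hy2⟩ := hd
      unfold tr at hy1 hy2
      obtain ⟨s, hs, rfl⟩ := Finset.mem_image.1 hy1
      obtain ⟨s', hs', e⟩ := Finset.mem_image.1 hy2
      have h3 := hf2 ⟨(n, true), ⟨g, hg⟩⟩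
      obtain ⟨s'', hs'', e'⟩ := Finset.mem_image.1 h3
      simp only [if_true] at e e'
      refine ⟨_, ⟨(⟨s'', hs''⟩, ⟨s', hs'⟩, ⟨s, hs⟩), rfl⟩, _, ⟨true, ⟨g, hg⟩, rfl⟩, ?_⟩
      rw [← e']
      simp only
      calc g * s'' * (s''⁻¹ * s' * s⁻¹) = (g * s') * s⁻¹ := by group
        _ = h := by rw [e]; group

end Pool.Agent.X211.Lg
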