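import Mathlib
import Pool.Agent.X211.SDR
import Pool.Agent.X211.ECred
import Pool.Agent.X211.Lg.Davies

/-!
# Many countable sets of a group whose quotients determine them
-/

set_option autoImplicit false

open Cardinal Set

universe u

namespace Pool.Agent.X211.Lg

/-- an independent family, indexed by `G × ℕ` -/
theorem exists_indep (G : Type u) [Group G] (hG : ℵ₀ < #G) : ∃ e : G → ℕ → G, (∀ i, Function.Injective (e i)) ∧
    ∀ i j n m n' m', n ≠ m → e i n * (e i m)⁻¹ = e j n' * (e j m')⁻¹ → i = j := by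
  classical
  have hX : #(G × ℕ) = #G := by
    rw [mk_prod]
    simp only [lift_uzero, mk_nat, lift_aleph0]
    exact mul_eq_left hG.le hG.le aleph0_ne_zero
  obtain ⟨_, _, hseg⟩ := exists_wellOrder_small (G × ℕ)
  rw [hX] at hseg
  have hwf : WellFounded (fun a b : G × ℕ => a < b) := wellFounded_lt
  have key : ∀ x : G × ℕ, ∀ g : (z : G × ℕ) → z < x → G, ∃ y,
      y ∉ Subgroup.closure (Set.range (fun z : Set.Iio x => g z.1 z.2)) := by
    intro x g
    by_contra hcon
    push Not at hcon
    have h1 : #(Set.range (fun z : Set.Iio x => g z.1 z.2)) ≤ max ℵ₀ #(Set.Iio x) := mk_range_le.trans (le_max_right _ _)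
    have h2 := (mk_closure_le (le_max_left _ _) h1).trans_lt (max_lt hG (hseg x))
    have h3 : #G ≤ #(Subgroup.closure (Set.range (fun z : Set.Iio x => g z.1 z.2))) :=
      mk_le_of_injective (f := fun y => (⟨y, hcon y⟩ : Subgroup.closure (Set.range (fun z : Set.Iio x => g z.1 z.2)))) fun a b h => by
        simpa using h
    exact absurd h2 (not_lt.2 h3)
  let e : G × ℕ → G := hwf.fix (fun x g => Classical.choose (key x g))
  have he : ∀ x, e x ∉ Subgroup.closure (Set.range (fun z : Set.Iio x => e z.1)) := by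
    intro x
    have e1 : e x = Classical.choose (key x (fun z _ => e z)) := hwf.fix_eq _ x
    have := Classical.choose_spec (key x (fun z _ => e z))
    rw [← e1] at this
    exact this
  -- a product of elements of smaller index is not `e x`
  have he3 : ∀ x y z w : G × ℕ, y < x → z < x → w < x → e x ≠ e y * (e z)⁻¹ * e w := by
    intro x y z w hy hz hw h
    refine he x ?_
    rw [h]
    exact Subgroup.mul_mem _ (Subgroup.mul_mem _ (Subgroup.subset_closure ⟨⟨y, hy⟩, rfl⟩)
      (Subgroup.inv_mem _ (Subgroup.subset_closure ⟨⟨z, hz⟩, rfl⟩))) (Subgroup.subset_closure ⟨⟨w, hw⟩, rfl⟩)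
  have hinj : Function.Injective e := by
    intro x y h
    rcases lt_trichotomy x y with h1 | h1 | h1
    · refine absurd (Subgroup.subset_closure ?_) (he y)
      exact ⟨⟨x, h1⟩, h⟩
    · exact h1
    · refine absurd (Subgroup.subset_closure ?_) (he x)
      exact ⟨⟨y, h1⟩, h.symm⟩
  refine ⟨fun i n => e (i, n), fun i n m h => by simpa using hinj h, ?_⟩
  intro i j n m n' m' hnm h
  by_contra hij
  have hnm' : n' ≠ m' := by
    rintro rfl
    rw [mul_inv_cancel, mul_inv_eq_one] at h
    exact hnm (by simpa using hinj h)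
  -- relations obtained by solving for each of the four elements
  have h1 : e (i, n) = e (j, n') * (e (j, m'))⁻¹ * e (i, m) := by
    simp only at h
    rw [← h]
    group
  have h2 : e (i, m) = e (j, m') * (e (j, n'))⁻¹ * e (i, n) := by
    rw [h1]
    group
  have h3 : e (j, n') = e (i, n) * (e (i, m))⁻¹ * e (j, m') := by
    rw [h1]
    group
  have h4 : e (j, m') = e (i, m) * (e (i, n))⁻¹ * e (j, n') := by
    rw [h1]
    group
  have hne1 : ∀ k l, ((i, k) : G × ℕ) ≠ (j, l) := fun k l h => hij (congrArg Prod.fst h)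
  have hA : ((i, n) : G × ℕ) ≠ (i, m) := fun h => hnm (congrArg Prod.snd h)
  have hB : ((j, n') : G × ℕ) ≠ (j, m') := fun h => hnm' (congrArg Prod.snd h)
  rcases lt_or_gt_of_ne hA with hA | hA <;> rcases lt_or_gt_of_ne hB with hB | hB
  · rcases lt_or_gt_of_ne (hne1 m m') with hC | hC
    · exact he3 _ _ _ _ hC (hA.trans hC) hB h4
    · exact he3 _ _ _ _ hC (hB.trans hC) hA h2
  · rcases lt_or_gt_of_ne (hne1 m n') with hC | hC
    · exact he3 _ _ _ _ (hA.trans hC) hC hB h3
    · exact he3 _ _ _ _ (hB.trans hC) hC hA h2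
  · rcases lt_or_gt_of_ne (hne1 n m') with hC | hC
    · exact he3 _ _ _ _ (hA.trans hC) hC hB h4
    · exact he3 _ _ _ _ (hB.trans hC) hC hA h1
  · rcases lt_or_gt_of_ne (hne1 n n') with hC | hC
    · exact he3 _ _ _ _ hC (hA.trans hC) hB h3
    · exact he3 _ _ _ _ hC (hB.trans hC) hA h1

/-- disjoint sets which meet all the translates of countable sets -/
theorem exists_disjoint_aleph1 (G : Type u) [Group G] (hG : ℵ₀ < #G) : ∃ (A : G → Set G) (E : G → Set G),
    (∀ i j, i ≠ j → Disjoint (A i) (A j)) ∧ (∀ i, (E i).Countable) ∧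
      ∀ i g, (∃ x ∈ E i, x * g ∈ A i) ∧ ∃ x ∈ E i, g * x⁻¹ ∈ A i := by
  classical
  obtain ⟨e, he1, he2⟩ := exists_indep G hG
  let dec : G → G := fun d => if h : ∃ i n m, n ≠ m ∧ d = e i n * (e i m)⁻¹ then Classical.choose h else 1
  have hdec : ∀ i n m, n ≠ m → dec (e i n * (e i m)⁻¹) = i := by
    intro i n m hnm
    have h : ∃ i' n' m', n' ≠ m' ∧ e i n * (e i m)⁻¹ = e i' n' * (e i' m')⁻¹ := ⟨i, n, m, hnm, rfl⟩
    show (if h : ∃ i' n' m', n' ≠ m' ∧ e i n * (e i m)⁻¹ = e i' n' * (e i' m')⁻¹ then Classical.choose h else 1) = i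
    rw [dif_pos h]
    obtain ⟨n', m', hnm', h2⟩ := Classical.choose_spec h
    exact (he2 _ _ _ _ _ _ hnm h2).symm
  let f : ℕ → G → G → G := fun k x y =>
    match k with
    | 0 => x * y
    | 1 => x⁻¹
    | 2 => dec x
    | (n + 3) => e x n
  let S : G × G × Bool → Set G := fun r => if r.2.2 then Set.range (fun n => e r.1 n * r.2.1) else
    Set.range (fun n => r.2.1 * (e r.1 n)⁻¹)
  obtain ⟨t, ht1, ht2⟩ := exists_injective_transversal (f := f) (fun r : G × G × Bool => r.1) (fun r => r.2.1) S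
    (fun x y => by
      have h1 : {r : G × G × Bool | r.1 = x ∧ r.2.1 = y} ⊆ {(x, y, true), (x, y, false)} := by
        rintro ⟨x', y', b⟩ ⟨rfl, rfl⟩
        rcases b with _ | _ <;> simp
      exact ((Set.toFinite _).subset h1).countable.le_aleph0)
    (fun r => by
      show (if r.2.2 then Set.range (fun n => e r.1 n * r.2.1) else Set.range (fun n => r.2.1 * (e r.1 n)⁻¹)).Infinite
      split_ifs
      · exact Set.infinite_range_of_injective fun n m h => he1 r.1 (mul_right_cancel h)
      · exact Set.infinite_range_of_injective fun n m h => he1 r.1 (inv_injective (mul_left_cancel h)))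
    (fun M hM r h1 h2 => by
      show (if r.2.2 then Set.range (fun n => e r.1 n * r.2.1) else Set.range (fun n => r.2.1 * (e r.1 n)⁻¹)) ⊆ M
      have h3 : ∀ n, e r.1 n ∈ M := fun n => hM (n + 3) _ _ h1 h1
      split_ifs
      · rintro _ ⟨n, rfl⟩
        exact hM 0 _ _ (h3 n) h2
      · rintro _ ⟨n, rfl⟩
        exact hM 0 _ _ h2 (hM 1 _ _ (h3 n) (h3 n)))
    (fun M hM r hr => by
      have hm : ∀ x y, x ∈ M → y ∈ M → x * y ∈ M := fun x y hx hy => hM 0 _ _ hx hy
      have hi : ∀ x, x ∈ M → x⁻¹ ∈ M := fun x hx => hM 1 _ _ hx hx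
      have hd : ∀ n m, n ≠ m → e r.1 n * (e r.1 m)⁻¹ ∈ M → r.1 ∈ M := by
        intro n m hnm h
        have := hM 2 _ _ h h
        change dec _ ∈ M at this
        rwa [hdec _ _ _ hnm] at this
      refine Set.Subsingleton.finite ?_
      rintro y ⟨hy, hyM⟩ z ⟨hz, hzM⟩
      change y ∈ (if r.2.2 then Set.range (fun n => e r.1 n * r.2.1) else Set.range (fun n => r.2.1 * (e r.1 n)⁻¹)) at hy
      change z ∈ (if r.2.2 then Set.range (fun n => e r.1 n * r.2.1) else Set.range (fun n => r.2.1 * (e r.1 n)⁻¹)) at hz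
      split_ifs at hy hz
      · obtain ⟨n, rfl⟩ := hy
        obtain ⟨m, rfl⟩ := hz
        by_contra hne
        have hnm : n ≠ m := fun h => hne (by rw [h])
        have h1 : r.1 ∈ M := hd n m hnm (by
          have := hm _ _ hyM (hi _ hzM)
          simpa [mul_assoc] using this)
        have h3 : ∀ n, e r.1 n ∈ M := fun n => hM (n + 3) _ _ h1 h1
        refine hr ⟨h1, ?_⟩
        have := hm _ _ (hi _ (h3 n)) hyM
        simpa using this
      · obtain ⟨n, rfl⟩ := hy
        obtain ⟨m, rfl⟩ := hz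
        by_contra hne
        have hnm : n ≠ m := fun h => hne (by rw [h])
        have h1 : r.1 ∈ M := hd n m hnm (by
          have := hm _ _ (hi _ hyM) hzM
          simpa [mul_assoc] using this)
        have h3 : ∀ n, e r.1 n ∈ M := fun n => hM (n + 3) _ _ h1 h1
        refine hr ⟨h1, ?_⟩
        have := hm _ _ hyM (h3 n)
        simpa using this)
  refine ⟨fun i => {y | ∃ r : G × G × Bool, r.1 = i ∧ t r = y}, fun i => Set.range (e i), ?_, fun i => Set.countable_range _, ?_⟩
  · intro i j hij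
    rw [Set.disjoint_left]
    rintro y ⟨r, hr, rfl⟩ ⟨r', hr', h⟩
    have := ht1 h
    subst this
    exact hij (hr.symm.trans hr')
  · intro i g
    constructor
    · have h1 := ht2 (i, g, true)
      change t (i, g, true) ∈ Set.range (fun n => e i n * g) at h1
      obtain ⟨n, hn⟩ := h1
      exact ⟨e i n, ⟨n, rfl⟩, (i, g, true), rfl, hn.symm⟩
    · have h1 := ht2 (i, g, false)
      change t (i, g, false) ∈ Set.range (fun n => g * (e i n)⁻¹) at h1
      obtain ⟨n, hn⟩ := h1
      exact ⟨e i n, ⟨n, rfl⟩, (i, g, false), rfl, hn.symm⟩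

end Pool.Agent.X211.Lg
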