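import Mathlib
import Pool.Agent.X211.Lg.Base
import Pool.Agent.X211.ECred

/-!
# Groups of uncountable limit cardinality
-/

set_option autoImplicit false

open Cardinal Set

universe u

namespace Pool.Agent.X211.Lg

variable {G : Type u} [Group G]

/-- the subgroup generated by the elements of rank below `j⁺` -/
def KL (rk : G → Ordinal.{u}) (j : Cardinal.{u}) : Subgroup G := Subgroup.closure {g | rk g < (Order.succ j).ord}

/-- double cosets -/
def dd (rk : G → Ordinal.{u}) (j : Cardinal.{u}) (x : G) : Set G := {y | ∃ a ∈ KL rk j, ∃ b ∈ KL rk j, y = a * x * b}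

/-- unions of double cosets -/
def dl (rk : G → Ordinal.{u}) (j : Cardinal.{u}) (x : G) : Set G := {y | y = x ∨ ∃ j' < j, y ∈ dd rk j' x}

/-- the cardinal level of an element -/
noncomputable def rho (rk : G → Ordinal.{u}) (c : G) : Cardinal.{u} := max ℵ₀ (rk c).card

variable {rk : G → Ordinal.{u}}

theorem KL_mono {j j' : Cardinal.{u}} (h : j ≤ j') : KL rk j ≤ KL rk j' :=
  Subgroup.closure_mono fun _ hg => lt_of_lt_of_le hg (ord_le_ord.2 (Order.succ_le_succ h))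

theorem dd_self (j : Cardinal.{u}) (x : G) : x ∈ dd rk j x := ⟨1, (KL rk j).one_mem, 1, (KL rk j).one_mem, by simp⟩

theorem dd_mono {j j' : Cardinal.{u}} (h : j ≤ j') (x : G) : dd rk j x ⊆ dd rk j' x := by
  rintro y ⟨a, ha, b, hb, rfl⟩
  exact ⟨a, KL_mono h ha, b, KL_mono h hb, rfl⟩

theorem dd_symm {j : Cardinal.{u}} {x y : G} (h : y ∈ dd rk j x) : x ∈ dd rk j y := by
  obtain ⟨a, ha, b, hb, rfl⟩ := h
  exact ⟨a⁻¹, (KL rk j).inv_mem ha, b⁻¹, (KL rk j).inv_mem hb, by group⟩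

theorem dd_trans {j : Cardinal.{u}} {x y z : G} (h : y ∈ dd rk j x) (h' : z ∈ dd rk j y) : z ∈ dd rk j x := by
  obtain ⟨a, ha, b, hb, rfl⟩ := h
  obtain ⟨a', ha', b', hb', rfl⟩ := h'
  exact ⟨a' * a, (KL rk j).mul_mem ha' ha, b * b', (KL rk j).mul_mem hb hb', by group⟩

theorem dl_self (j : Cardinal.{u}) (x : G) : x ∈ dl rk j x := Or.inl rfl

theorem dl_sub (j : Cardinal.{u}) (x : G) : dl rk j x ⊆ dd rk j x := by
  rintro y (rfl | ⟨j', hj', h⟩)
  · exact dd_self j _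
  · exact dd_mono hj'.le x h

theorem sub_dl {j j' : Cardinal.{u}} (h : j < j') (x : G) : dd rk j x ⊆ dl rk j' x := fun _ hy => Or.inr ⟨j, h, hy⟩

theorem dl_symm {j : Cardinal.{u}} {x y : G} (h : y ∈ dl rk j x) : x ∈ dl rk j y := by
  rcases h with rfl | ⟨j', hj', h⟩
  · exact dl_self j _
  · exact Or.inr ⟨j', hj', dd_symm h⟩

theorem dl_trans {j : Cardinal.{u}} {x y z : G} (h : y ∈ dl rk j x) (h' : z ∈ dl rk j y) : z ∈ dl rk j x := by
  rcases h with rfl | ⟨j', hj', h⟩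
  · exact h'
  rcases h' with rfl | ⟨j'', hj'', h'⟩
  · exact Or.inr ⟨j', hj', h⟩
  exact Or.inr ⟨max j' j'', max_lt hj' hj'', dd_trans (dd_mono (le_max_left _ _) _ h) (dd_mono (le_max_right _ _) _ h')⟩

theorem dl_eq {j : Cardinal.{u}} {x y : G} (h : y ∈ dl rk j x) : dl rk j y = dl rk j x :=
  Set.Subset.antisymm (fun _ hz => dl_trans h hz) (fun _ hz => dl_trans (dl_symm h) hz)

theorem cs_sub_dd (j : Cardinal.{u}) (p : G × Bool) : cs (KL rk j) p ⊆ dd rk j p.1 := by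
  intro y hy
  unfold cs at hy
  split_ifs at hy
  · obtain ⟨k, hk, rfl⟩ := hy
    exact ⟨1, (KL rk j).one_mem, k, hk, by simp⟩
  · obtain ⟨k, hk, rfl⟩ := hy
    exact ⟨k, hk, 1, (KL rk j).one_mem, by simp⟩

section card

variable (hcard : ∀ o ≤ (#G).ord, #{g | rk g < o} = o.card)
include hcard

theorem mk_KL {j : Cardinal.{u}} (hj : ℵ₀ ≤ j) (hjG : Order.succ j ≤ #G) : #(KL rk j) = Order.succ j := by
  have h1 : #{g | rk g < (Order.succ j).ord} = Order.succ j := by rw [hcard _ (ord_le_ord.2 hjG), card_ord]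
  refine le_antisymm (mk_closure_le (hj.trans (Order.le_succ j)) h1.le) ?_
  conv_lhs => rw [← h1]
  exact mk_le_mk_of_subset Subgroup.subset_closure

theorem mk_KL_le {j i : Cardinal.{u}} (hi : ℵ₀ ≤ i) (hji : j < i) (hiG : i ≤ #G) : #(KL rk j) ≤ i := by
  have h1 : #{g | rk g < (Order.succ j).ord} = Order.succ j := by
    rw [hcard _ (ord_le_ord.2 ((Order.succ_le_of_lt hji).trans hiG)), card_ord]
  exact mk_closure_le hi (h1.le.trans (Order.succ_le_of_lt hji))

theorem mk_dd_le {j i : Cardinal.{u}} (hi : ℵ₀ ≤ i) (hji : j < i) (hiG : i ≤ #G) (x : G) : #(dd rk j x) ≤ i := by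
  have h1 : dd rk j x ⊆ Set.range (fun p : KL rk j × KL rk j => (p.1 : G) * x * p.2) := by
    rintro y ⟨a, ha, b, hb, rfl⟩
    exact ⟨(⟨a, ha⟩, ⟨b, hb⟩), rfl⟩
  refine (mk_le_mk_of_subset h1).trans (mk_range_le.trans ?_)
  rw [mk_prod]
  simp only [lift_id]
  exact (mul_le_mul' (mk_KL_le hcard hi hji hiG) (mk_KL_le hcard hi hji hiG)).trans (mul_eq_self hi).le

theorem mk_dl_le (hsurj : ∀ o < (#G).ord, ∃ g, rk g = o) {i : Cardinal.{u}} (hi : ℵ₀ ≤ i) (hiG : i ≤ #G) (x : G) :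
    #(dl rk i x) ≤ i := by
  have h1 : dl rk i x ⊆ {x} ∪ ⋃ w : {g | rk g < i.ord}, dd rk ((rk w.1).card) x := by
    rintro y (rfl | ⟨j, hj, h⟩)
    · exact Or.inl rfl
    · obtain ⟨w, hw⟩ := hsurj j.ord (ord_lt_ord.2 (hj.trans_le hiG))
      refine Or.inr (Set.mem_iUnion.2 ⟨⟨w, ?_⟩, ?_⟩)
      · show rk w < i.ord
        rw [hw]
        exact ord_lt_ord.2 hj
      · show y ∈ dd rk ((rk w).card) x
        rw [hw, card_ord]
        exact h
  refine (mk_le_mk_of_subset h1).trans ((mk_union_le _ _).trans ?_)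
  rw [mk_singleton]
  have h2 : #(⋃ w : {g | rk g < i.ord}, dd rk ((rk w.1).card) x) ≤ i := by
    refine (mk_iUnion_le _).trans ?_
    have h3 : #{g | rk g < i.ord} = i := by rw [hcard _ (ord_le_ord.2 hiG), card_ord]
    rw [h3]
    have h4 : (⨆ w : {g | rk g < i.ord}, #(dd rk ((rk w.1).card) x)) ≤ i := by
      refine ciSup_le' fun w => mk_dd_le hcard hi (lt_ord.1 w.2) hiG x
    exact (mul_le_mul' le_rfl h4).trans (mul_eq_self hi).le
  exact (add_le_add (one_le_aleph0.trans hi) h2).trans (add_eq_self hi).le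

end card

/-- the inductive statement -/
def PP (rk : G → Ordinal.{u}) (i : Cardinal.{u}) : Prop := ∀ x : G, ∃ B : G → Set G, (∀ c c', c ≠ c' → Disjoint (B c) (B c')) ∧
  ∀ c (p : G × Bool), rho rk c < i → p.1 ∈ dl rk i x → (cs (KL rk (rho rk c)) p ∩ B c).Infinite

theorem PP_step (hsurj : ∀ o < (#G).ord, ∃ g, rk g = o) (hcard : ∀ o ≤ (#G).ord, #{g | rk g < o} = o.card)
    (i : Cardinal.{u}) (ih : ∀ j < i, PP rk j) (hiG : i ≤ #G) : PP rk i := by
  classical
  intro x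
  choose! BB hBB1 hBB2 using ih
  let Req : Cardinal.{u} → Type u := fun j => {r : G × (G × Bool) × ℕ // rho rk r.1 = j ∧ r.2.1.1 ∈ dd rk j x}
  have hReq : ∀ j, ℵ₀ ≤ j → j < i → #(Req j) ≤ Order.succ j := by
    intro j hj hji
    have hj' : ℵ₀ ≤ Order.succ j := hj.trans (Order.le_succ j)
    have hjG : Order.succ j ≤ #G := (Order.succ_le_of_lt hji).trans hiG
    have h1 : #(Req j) ≤ #({g | rk g < (Order.succ j).ord} × (dd rk j x) × Bool × ℕ) := by
      refine mk_le_of_injective (f := fun r : Req j => (⟨r.1.1, by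
        show rk r.1.1 < (Order.succ j).ord
        rw [lt_ord, Order.lt_succ_iff]
        exact (le_max_right _ _).trans r.2.1.le⟩, ⟨r.1.2.1.1, r.2.2⟩, r.1.2.1.2, r.1.2.2)) ?_
      rintro ⟨⟨a, ⟨b, c⟩, d⟩, h⟩ ⟨⟨a', ⟨b', c'⟩, d'⟩, h'⟩ e
      simp only [Prod.mk.injEq, Subtype.mk.injEq] at e
      obtain ⟨rfl, rfl, rfl, rfl⟩ := e
      rfl
    refine h1.trans ?_
    have h2 : #{g | rk g < (Order.succ j).ord} = Order.succ j := by rw [hcard _ (ord_le_ord.2 hjG), card_ord]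
    have h3 : #(dd rk j x) ≤ Order.succ j := mk_dd_le hcard hj' (Order.lt_succ j) hjG x
    have h4 : #(Bool × ℕ) = ℵ₀ := by simp
    rw [mk_prod, mk_prod, h4]
    simp only [lift_id, lift_uzero, lift_aleph0]
    rw [h2]
    have h5 : #(dd rk j x) * ℵ₀ ≤ Order.succ j := by
      exact (mul_le_mul' h3 hj').trans (mul_eq_self hj').le
    exact (mul_le_mul' le_rfl h5).trans (mul_eq_self hj').le
  have hch : ∀ j, ℵ₀ ≤ j → j < i → ∃ t : Req j → G, (∀ r r', dl rk j (t r) = dl rk j (t r') → r = r') ∧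
      ∀ r, t r ∈ cs (KL rk j) r.1.2.1 ∧ t r ∉ dl rk j x := by
    intro j hj hji
    have hjG : Order.succ j ≤ #G := (Order.succ_le_of_lt hji).trans hiG
    have hjG' : j ≤ #G := (Order.le_succ j).trans hjG
    obtain ⟨T, hT1, hT2⟩ := exists_injective_choice (fun r : Req j => (dl rk j) '' (cs (KL rk j) r.1.2.1 \ dl rk j x))
      fun r => by
        refine (hReq j hj hji).trans ?_
        rw [Order.succ_le_iff]
        by_contra hcon
        rw [not_lt] at hcon
        have h1 : cs (KL rk j) r.1.2.1 ⊆ dl rk j x ∪ ⋃ D : ((dl rk j) '' (cs (KL rk j) r.1.2.1 \ dl rk j x)), D.1 := by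
          intro y hy
          by_cases hyx : y ∈ dl rk j x
          · exact Or.inl hyx
          · exact Or.inr (Set.mem_iUnion.2 ⟨⟨dl rk j y, y, ⟨hy, hyx⟩, rfl⟩, dl_self j y⟩)
        have h2 : #(dl rk j x ∪ ⋃ D : ((dl rk j) '' (cs (KL rk j) r.1.2.1 \ dl rk j x)), D.1 : Set G) ≤ j := by
          refine (mk_union_le _ _).trans ((add_le_add (mk_dl_le hcard hsurj hj hjG' x) ?_).trans (add_eq_self hj).le)
          refine (mk_iUnion_le _).trans ?_
          have h4 : (⨆ D : ((dl rk j) '' (cs (KL rk j) r.1.2.1 \ dl rk j x)), #D.1) ≤ j := by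
            refine ciSup_le' fun D => ?_
            obtain ⟨_, y, hy, rfl⟩ := D
            exact mk_dl_le hcard hsurj hj hjG' y
          exact (mul_le_mul' hcon h4).trans (mul_eq_self hj).le
        have h3 := (mk_le_mk_of_subset h1).trans h2
        rw [mk_cs, mk_KL hcard hj hjG] at h3
        exact absurd (Order.lt_succ j) (not_lt.2 h3)
    choose t ht1 ht2 using hT2
    refine ⟨t, fun r r' h => hT1 ?_, ht1⟩
    rw [← ht2 r, ← ht2 r', h]
  choose! t ht1 ht2 using hch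
  let rep : Set G → G := fun D => if h : ∃ z, z ∈ D then Classical.choose h else 1
  have hrep : ∀ j y, rep (dl rk j y) ∈ dl rk j y := by
    intro j y
    have h : ∃ z, z ∈ dl rk j y := ⟨y, dl_self j y⟩
    show (if h : ∃ z, z ∈ dl rk j y then Classical.choose h else 1) ∈ dl rk j y
    rw [dif_pos h]
    exact Classical.choose_spec h
  have htd : ∀ j, ℵ₀ ≤ j → j < i → ∀ r : Req j, t j r ∈ dd rk j x := by
    intro j hj hji r
    exact dd_trans r.2.2 (cs_sub_dd j _ (ht2 j hj hji r).1)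
  have huniq : ∀ j j' y, y ∈ dd rk j x → y ∉ dl rk j x → y ∈ dd rk j' x → y ∉ dl rk j' x → j = j' := by
    intro j j' y h1 h2 h3 h4
    rcases lt_trichotomy j j' with h | h | h
    · exact absurd (sub_dl h x h1) h4
    · exact h
    · exact absurd (sub_dl h x h3) h2
  refine ⟨fun c => {y | (∃ (j : Cardinal.{u}) (_ : ℵ₀ ≤ j) (_ : j < i) (r : Req j), r.1.1 = c ∧ y = t j r) ∨
    ∃ j, rho rk c < j ∧ j < i ∧ y ∈ dd rk j x ∧ y ∉ dl rk j x ∧ y ∈ BB j (rep (dl rk j y)) c ∧ ∀ r : Req j, y ≠ t j r}, ?_, ?_⟩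
  · intro c c' hcc
    rw [Set.disjoint_left]
    rintro y h h'
    have hA : ∀ c, (∃ (j : Cardinal.{u}) (_ : ℵ₀ ≤ j) (_ : j < i) (r : Req j), r.1.1 = c ∧ y = t j r) →
        ∃ j, ℵ₀ ≤ j ∧ j < i ∧ y ∈ dd rk j x ∧ y ∉ dl rk j x ∧ ∃ r : Req j, r.1.1 = c ∧ y = t j r := by
      rintro c ⟨j, hj, hji, r, hr, rfl⟩
      exact ⟨j, hj, hji, htd j hj hji r, (ht2 j hj hji r).2, r, hr, rfl⟩
    rcases h with h | ⟨j, hcj, hji, h1, h2, h3, h4⟩
    · obtain ⟨j, hj, hji, h1, h2, r, hr, hyr⟩ := hA c h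
      rcases h' with h' | ⟨j', hcj', hji', h1', h2', h3', h4'⟩
      · obtain ⟨j', hj', hji', h1', h2', r', hr', hyr'⟩ := hA c' h'
        obtain rfl := huniq j j' y h1 h2 h1' h2'
        have h5 := ht1 j hj hji r r' (by rw [← hyr, ← hyr'])
        subst h5
        exact hcc (hr.symm.trans hr')
      · obtain rfl := huniq j j' y h1 h2 h1' h2'
        exact h4' r hyr
    · rcases h' with h' | ⟨j', hcj', hji', h1', h2', h3', h4'⟩
      · obtain ⟨j', hj', hji', h1', h2', r', hr', hyr'⟩ := hA c' h'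
        obtain rfl := huniq j j' y h1 h2 h1' h2'
        exact h4 r' hyr'
      · obtain rfl := huniq j j' y h1 h2 h1' h2'
        exact Set.disjoint_left.1 (hBB1 j hji (rep (dl rk j y)) c c' hcc) h3 h3'
  · intro c p hci hp
    have hc0 : ℵ₀ ≤ rho rk c := le_max_left _ _
    by_cases hpj : p.1 ∈ dd rk (rho rk c) x
    · let r : ℕ → Req (rho rk c) := fun n => ⟨(c, p, n), rfl, hpj⟩
      have hr : Function.Injective r := fun a b h => by
        have := congrArg (fun q => q.1.2.2) h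
        exact this
      refine (Set.infinite_range_of_injective (f := fun n => t (rho rk c) (r n)) ?_).mono ?_
      · intro a b h
        exact hr (ht1 _ hc0 hci _ _ (congrArg (dl rk (rho rk c)) h))
      · rintro _ ⟨n, rfl⟩
        exact ⟨(ht2 _ hc0 hci (r n)).1, Or.inl ⟨_, hc0, hci, r n, rfl, rfl⟩⟩
    · have h0 : ∃ j, j < i ∧ p.1 ∈ dd rk j x := by
        rcases hp with hp | hp
        · exact absurd (by rw [hp]; exact dd_self _ x) hpj
        · exact hp
      let j := sInf {j | j < i ∧ p.1 ∈ dd rk j x}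
      have hj : j < i ∧ p.1 ∈ dd rk j x := csInf_mem (s := {j | j < i ∧ p.1 ∈ dd rk j x}) h0
      have hmin : ∀ j', j' < j → p.1 ∉ dd rk j' x := fun j' hj' h => absurd (csInf_le' (s := {j | j < i ∧ p.1 ∈ dd rk j x})
        ⟨hj'.trans hj.1, h⟩) (not_le.2 hj')
      have hcj : rho rk c < j := by
        by_contra hcon
        rw [not_lt] at hcon
        exact hpj (dd_mono hcon x hj.2)
      have hpx : p.1 ∉ dl rk j x := by
        rintro (h | ⟨j', hj', h⟩)
        · exact hpj (by rw [h]; exact dd_self _ x)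
        · exact hmin j' hj' h
      have h1 := hBB2 j hj.1 (rep (dl rk j p.1)) c p hcj (by
        exact dl_symm (hrep j p.1))
      have hsub : cs (KL rk (rho rk c)) p ⊆ dl rk j p.1 := fun y hy => sub_dl hcj p.1 (cs_sub_dd _ p hy)
      have hj0 : ℵ₀ ≤ j := hc0.trans hcj.le
      have h2 : ({y | ∃ r : Req j, y = t j r} ∩ dl rk j p.1).Subsingleton := by
        rintro y ⟨⟨r, rfl⟩, hy⟩ y' ⟨⟨r', rfl⟩, hy'⟩
        have := ht1 j hj0 hj.1 r r' (by rw [dl_eq hy, dl_eq hy'])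
        rw [this]
      refine (h1.sdiff h2.finite).mono ?_
      rintro y ⟨⟨hy1, hy2⟩, hy3⟩
      have hyp := hsub hy1
      refine ⟨hy1, Or.inr ⟨j, hcj, hj.1, dd_trans hj.2 (dl_sub j _ hyp), fun h => hpx ?_, ?_, ?_⟩⟩
      · exact dl_trans h (dl_symm hyp)
      · rw [dl_eq hyp]
        exact hy2
      · intro r hyr
        exact hy3 ⟨⟨r, hyr⟩, hyp⟩

theorem exists_disjoint_lim (G : Type u) [Group G] (hG : ℵ₀ < #G) (hlim : ∀ j < #G, Order.succ j < #G) :
    ∃ A : G → Set G, (∀ i j, i ≠ j → Disjoint (A i) (A j)) ∧ ∀ i, LeftLarge #G (A i) ∧ RightLarge #G (A i) := by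
  obtain ⟨rk, hinj, hlt, hsurj, hcard⟩ := exists_rk G
  have hP : ∀ i : Cardinal.{u}, i ≤ #G → PP rk i := by
    intro i
    induction i using Cardinal.lt_wf.induction with
    | _ i ih => 
      intro hi
      exact PP_step hsurj hcard i (fun j hj => ih j hj (hj.le.trans hi)) hi
  obtain ⟨B, hB1, hB2⟩ := hP #G le_rfl 1
  refine ⟨B, hB1, fun c => ?_⟩
  have hc : rho rk c < #G := max_lt hG (lt_ord.1 (hlt c))
  have hK : #(KL rk (rho rk c)) < #G := by
    rw [mk_KL (rk := rk) (j := rho rk c) hcard (le_max_left _ _) (Order.succ_le_of_lt hc)]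
    exact hlim _ hc
  obtain ⟨u, hu⟩ : ∃ u, u ∉ KL rk (rho rk c) := by
    by_contra hcon
    push Not at hcon
    have h1 : #G ≤ #(KL rk (rho rk c)) := mk_le_of_injective (f := fun g => (⟨g, hcon g⟩ : KL rk (rho rk c))) fun a b h => by
      simpa using h
    exact absurd hK (not_lt.2 h1)
  refine large_of_meets hG.le hK hu fun p _ => (hB2 c p hc ?_).nonempty
  have h1 : p.1 ∈ KL rk (rho rk p.1) := Subgroup.subset_closure (by
    show rk p.1 < (Order.succ (rho rk p.1)).ord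
    rw [lt_ord, Order.lt_succ_iff]
    exact le_max_right _ _)
  exact Or.inr ⟨rho rk p.1, max_lt hG (lt_ord.1 (hlt _)), p.1, h1, 1, Subgroup.one_mem _, by simp⟩

end Pool.Agent.X211.Lg
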