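import Mathlib
import Pool.Agent.X211.Lg.Base
import Pool.Agent.X211.ECred

/-!
# Groups of successor cardinality
-/

set_option autoImplicit false

open Cardinal Set

universe u

namespace Pool.Agent.X211.Lg

variable {G : Type u} [Group G]

theorem exists_disjoint_succ (G : Type u) [Group G] {ν : Cardinal.{u}} (hν : ℵ₀ ≤ ν) (hG : #G = Order.succ ν) :
    ∃ A : G → Set G, (∀ i j, i ≠ j → Disjoint (A i) (A j)) ∧ ∀ i, LeftLarge #G (A i) ∧ RightLarge #G (A i) := by
  classical
  obtain ⟨rk, hinj, hlt, -, hcard⟩ := exists_rk G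
  have hνG : ν < #G := by
    rw [hG]
    exact Order.lt_succ ν
  let o : Ordinal.{u} → Ordinal.{u} := fun β => max ν.ord (Order.succ β)
  have hoG : ∀ β < (#G).ord, o β < (#G).ord := fun β hβ => max_lt (ord_lt_ord.2 hνG)
    ((isSuccLimit_ord (hν.trans hνG.le)).succ_lt hβ)
  have hoc : ∀ β < (#G).ord, (o β).card = ν := by
    intro β hβ
    refine le_antisymm ?_ ?_
    · have h1 := lt_ord.1 (hoG β hβ)
      rw [hG] at h1
      exact Order.lt_succ_iff.1 h1
    · have h1 := Ordinal.card_le_card (le_max_left ν.ord (Order.succ β))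
      rwa [card_ord] at h1
  let K : Ordinal.{u} → Subgroup G := fun β => Subgroup.closure {g | rk g < o β}
  have hKmono : ∀ β γ, β ≤ γ → K β ≤ K γ := by
    intro β γ h
    refine Subgroup.closure_mono fun g hg => ?_
    exact lt_of_lt_of_le hg (max_le_max le_rfl (Order.succ_le_succ h))
  have hKcard : ∀ β < (#G).ord, #(K β) = ν := by
    intro β hβ
    have h1 : #{g | rk g < o β} = ν := by rw [hcard _ (hoG β hβ).le, hoc β hβ]
    refine le_antisymm (mk_closure_le hν h1.le) ?_
    rw [← h1]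
    exact mk_le_mk_of_subset Subgroup.subset_closure
  have hself : ∀ g, g ∈ K (rk g) := fun g => Subgroup.subset_closure
    (lt_of_lt_of_le (Order.lt_succ (rk g)) (le_max_right _ _))
  let lev : G → Ordinal.{u} := fun g => sInf {β | g ∈ K β}
  have hlev : ∀ g, g ∈ K (lev g) := fun g => csInf_mem (s := {β | g ∈ K β}) ⟨_, hself g⟩
  have hlevle : ∀ g β, g ∈ K β → lev g ≤ β := fun g β h => csInf_le' h
  have hlevlt : ∀ g, lev g < (#G).ord := fun g => (hlevle g _ (hself g)).trans_lt (hlt g)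
  let Req : Ordinal.{u} → Type u := fun β => {r : G × (G × Bool) // rk r.1 < β ∧ lev r.2.1 = β}
  have hReq : ∀ β < (#G).ord, #(Req β) ≤ ν := by
    intro β hβ
    have h1 : #(Req β) ≤ #({g | rk g < β} × (K β) × Bool) := by
      refine mk_le_of_injective (f := fun r : Req β => (⟨r.1.1, r.2.1⟩, ⟨r.1.2.1, by
        have := hlev r.1.2.1
        rwa [r.2.2] at this⟩, r.1.2.2)) ?_
      rintro ⟨⟨a, b, c⟩, h⟩ ⟨⟨a', b', c'⟩, h'⟩ e
      simp only [Prod.mk.injEq, Subtype.mk.injEq] at e
      obtain ⟨rfl, rfl, rfl⟩ := e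
      rfl
    refine h1.trans ?_
    rw [mk_prod, mk_prod]
    simp only [lift_id, lift_uzero]
    have h2 : #{g | rk g < β} ≤ ν := by
      rw [hcard _ hβ.le]
      have h3 := lt_ord.1 hβ
      rw [hG] at h3
      exact Order.lt_succ_iff.1 h3
    have h4 : #(K β) * lift.{u} #Bool ≤ ν := by
      rw [hKcard β hβ]
      have : lift.{u} #Bool = 2 := by simp
      rw [this]
      exact (mul_le_mul' le_rfl ((nat_lt_aleph0 2).le.trans hν)).trans (mul_eq_self hν).le
    exact (mul_le_mul' h2 h4).trans (mul_eq_self hν).le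
  have hcs : ∀ (c : G) (p : G × Bool), rk c < lev p.1 → ∀ y ∈ cs (K (rk c)) p, lev y = lev p.1 := by
    intro c p hcp y hy
    have h1 : ∀ γ, γ < lev p.1 → rk c ≤ γ → y ∉ K γ := by
      intro γ hγ hcγ hyγ
      have h2 : p.1 ∈ K γ := by
        unfold cs at hy
        split_ifs at hy
        · obtain ⟨k, hk, rfl⟩ := hy
          have := (K γ).mul_mem hyγ ((K γ).inv_mem (hKmono _ _ hcγ hk))
          rwa [mul_inv_cancel_right] at this
        · obtain ⟨k, hk, rfl⟩ := hy
          have := (K γ).mul_mem ((K γ).inv_mem (hKmono _ _ hcγ hk)) hyγ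
          rwa [inv_mul_cancel_left] at this
      exact absurd (hlevle _ _ h2) (not_le.2 hγ)
    have h3 : y ∈ K (lev p.1) := by
      unfold cs at hy
      split_ifs at hy
      · obtain ⟨k, hk, rfl⟩ := hy
        exact (K _).mul_mem (hlev _) (hKmono _ _ hcp.le hk)
      · obtain ⟨k, hk, rfl⟩ := hy
        exact (K _).mul_mem (hKmono _ _ hcp.le hk) (hlev _)
    refine le_antisymm (hlevle _ _ h3) ?_
    by_contra hcon
    rw [not_le] at hcon
    rcases le_total (rk c) (lev y) with h4 | h4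
    · exact h1 _ hcon h4 (hlev y)
    · exact h1 _ hcp le_rfl (hKmono _ _ h4 (hlev y))
  have hch : ∀ β, β < (#G).ord → ∃ t : Req β → G, Function.Injective t ∧ ∀ r, t r ∈ cs (K (rk r.1.1)) r.1.2 := by
    intro β hβ
    refine exists_injective_choice (fun r : Req β => cs (K (rk r.1.1)) r.1.2) fun r => ?_
    rw [mk_cs, hKcard _ (hlt _)]
    exact hReq β hβ
  choose! t ht1 ht2 using hch
  have hlevt : ∀ β, β < (#G).ord → ∀ r : Req β, lev (t β r) = β := by
    intro β hβ r
    rw [hcs r.1.1 r.1.2 (by rw [r.2.2]; exact r.2.1) _ (ht2 β hβ r), r.2.2]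
  refine ⟨fun c => {y | ∃ (β : Ordinal.{u}) (_ : β < (#G).ord) (r : Req β), r.1.1 = c ∧ y = t β r}, ?_, fun c => ?_⟩
  · intro c c' hcc
    rw [Set.disjoint_left]
    rintro y ⟨β, hβ, r, hr, rfl⟩ ⟨β', hβ', r', hr', e⟩
    have h1 : β = β' := by rw [← hlevt β hβ r, e, hlevt β' hβ' r']
    subst h1
    have h2 := ht1 β hβ e
    subst h2
    exact hcc (hr.symm.trans hr')
  · have hK : #(K (rk c)) < #G := by
      rw [hKcard _ (hlt _)]
      exact hνG
    obtain ⟨u, hu⟩ : ∃ u, u ∉ K (rk c) := by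
      by_contra hcon
      push Not at hcon
      have h1 : #G ≤ #(K (rk c)) := mk_le_of_injective (f := fun g => (⟨g, hcon g⟩ : K (rk c))) fun a b h => by
        simpa using h
      exact absurd hK (not_lt.2 h1)
    refine large_of_meets (hν.trans hνG.le) hK hu fun p hp => ?_
    have h1 : rk c < lev p.1 := by
      by_contra hcon
      rw [not_lt] at hcon
      exact hp (hKmono _ _ hcon (hlev p.1))
    let r : Req (lev p.1) := ⟨(c, p), h1, rfl⟩
    exact ⟨t _ r, ht2 _ (hlevlt _) r, _, hlevlt _, r, rfl, rfl⟩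

end Pool.Agent.X211.Lg
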